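import Pool.Agent.Helper27.MC.Base

set_option autoImplicit false

namespace Pool.Agent.Helper27.MC

/-! Second layer: facts about optimal colourings, slots, territories. -/

section defs

variable {V : Type} [Fintype V] [DecidableEq V] (G : SimpleGraph V) [DecidableRel G.Adj]

/-- The conclusion of Ando's conjecture. -/
def Sol : Prop :=
  ∃ B : Finset V, 2 * B.card = Fintype.card V ∧
    Nonempty (SimpleGraph.Iso (G.induce (↑B : Set V)) (G.induce ((↑B : Set V)ᶜ)))

/-- No triangles. -/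
def NoTri : Prop := ∀ a b c : V, G.Adj a b → G.Adj b c → ¬ G.Adj a c

/-- No 4-cycles. -/
def NoSq : Prop := ∀ a b x y : V, a ≠ b → x ≠ y → G.Adj a x → G.Adj a y → G.Adj b x → ¬ G.Adj b y

/-- Free: an `S`-vertex with both `true` neighbours of type `A`. -/
def Fr (c : V → Bool) (s : V) : Prop := tS G c s ∧ ∀ w, G.Adj s w → c w = true → tA G c w

/-- Type `T1`: an `S`-vertex with exactly one neighbour of type `Q` (and one of type `A`). -/
def T1 (c : V → Bool) (t : V) : Prop :=
  tS G c t ∧ (∃ q, G.Adj t q ∧ tQ G c q) ∧ (∃ a, G.Adj t a ∧ tA G c a)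

/-- Type `D`: an `S`-vertex with both `true` neighbours of type `Q`. -/
def TD (c : V → Bool) (s : V) : Prop := tS G c s ∧ ∀ w, G.Adj s w → c w = true → tQ G c w

/-- Territory of a flip set: the closed neighbourhood and the mates of its vertices. -/
def ter (c : V → Bool) (X : Finset V) : Finset V :=
  Finset.univ.filter (fun v => v ∈ cn G X ∨ ∃ y ∈ cn G X, G.Adj y v ∧ c y = c v)

/-- Slots. -/
def IsSl (c : V → Bool) (u a : V) : Prop := Fr G c u ∧ tA G c a ∧ G.Adj u a

/-- Slots of type `N`: the other neighbours of `a` are of type `B`. -/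
def Nsl (c : V → Bool) (u a : V) : Prop :=
  IsSl G c u a ∧ ∀ x, G.Adj a x → x ≠ u → tB G c x

/-- Slots of type `M`: one other neighbour `t` of `a` is of type `T1`, the third one of type `B`. -/
def Msl (c : V → Bool) (u a t : V) : Prop :=
  IsSl G c u a ∧ G.Adj a t ∧ t ≠ u ∧ T1 G c t ∧ ∀ x, G.Adj a x → x ≠ u → x ≠ t → tB G c x

instance (c : V → Bool) (v : V) : Decidable (Fr G c v) := by unfold Fr; infer_instance
instance (c : V → Bool) (v : V) : Decidable (T1 G c v) := by unfold T1; infer_instance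
instance (c : V → Bool) (v : V) : Decidable (TD G c v) := by unfold TD; infer_instance
instance (c : V → Bool) (u a : V) : Decidable (IsSl G c u a) := by unfold IsSl; infer_instance
instance (c : V → Bool) (u a : V) : Decidable (Nsl G c u a) := by unfold Nsl; infer_instance
instance (c : V → Bool) (u a t : V) : Decidable (Msl G c u a t) := by unfold Msl; infer_instance

end defs

/-! ### Facts, for all simple cubic graphs -/

/-- F1: two `S`-neighbours of a `Q`-vertex are mates. -/
def ST_F1 : Prop :=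
  ∀ (V : Type) [Fintype V] [DecidableEq V] (G : SimpleGraph V) [DecidableRel G.Adj],
    G.IsRegularOfDegree 3 → ∀ (c : V → Bool) (j : ℕ), Opt G c j → 1 ≤ j →
      ∀ q s s' : V, tQ G c q → G.Adj q s → G.Adj q s' → s ≠ s' → tS G c s → tS G c s' →
        G.Adj s s'

/-- F2: for `2 ≤ j`, among three `S`-neighbours of an `A`-vertex there are mates. -/
def ST_F2 : Prop :=
  ∀ (V : Type) [Fintype V] [DecidableEq V] (G : SimpleGraph V) [DecidableRel G.Adj],
    G.IsRegularOfDegree 3 → ∀ (c : V → Bool) (j : ℕ), Opt G c j → 2 ≤ j →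
      ∀ a s1 s2 s3 : V, tA G c a → G.Adj a s1 → G.Adj a s2 → G.Adj a s3 →
        s1 ≠ s2 → s1 ≠ s3 → s2 ≠ s3 → tS G c s1 → tS G c s2 → tS G c s3 →
        G.Adj s1 s2 ∨ G.Adj s1 s3 ∨ G.Adj s2 s3

/-- F2': three pairwise nonadjacent `S`-neighbours of an `A`-vertex are free. -/
def ST_F2P : Prop :=
  ∀ (V : Type) [Fintype V] [DecidableEq V] (G : SimpleGraph V) [DecidableRel G.Adj],
    G.IsRegularOfDegree 3 → ∀ (c : V → Bool) (j : ℕ), Opt G c j → 1 ≤ j →
      ∀ a s1 s2 s3 : V, tA G c a → G.Adj a s1 → G.Adj a s2 → G.Adj a s3 →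
        s1 ≠ s2 → s1 ≠ s3 → s2 ≠ s3 → tS G c s1 → tS G c s2 → tS G c s3 →
        ¬ G.Adj s1 s2 → ¬ G.Adj s1 s3 → ¬ G.Adj s2 s3 →
        Fr G c s1 ∧ ∀ b, b ≠ a → G.Adj b s1 → ¬ G.Adj b s2

/-- F3: two free nonadjacent vertices at an `A`-vertex with third neighbour of type `B` have a
second common neighbour. -/
def ST_F3 : Prop :=
  ∀ (V : Type) [Fintype V] [DecidableEq V] (G : SimpleGraph V) [DecidableRel G.Adj],
    G.IsRegularOfDegree 3 → ∀ (c : V → Bool) (j : ℕ), Opt G c j → 1 ≤ j →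
      ∀ a s1 s2 w : V, tA G c a → G.Adj a s1 → G.Adj a s2 → G.Adj a w →
        s1 ≠ s2 → Fr G c s1 → Fr G c s2 → tB G c w → ¬ G.Adj s1 s2 →
        ∃ b, b ≠ a ∧ G.Adj b s1 ∧ G.Adj b s2

/-- F4: the number of free vertices (general form; the last term counts the Thetas). -/
def ST_F4 : Prop :=
  ∀ (V : Type) [Fintype V] [DecidableEq V] (G : SimpleGraph V) [DecidableRel G.Adj],
    G.IsRegularOfDegree 3 → ∀ (c : V → Bool) (j : ℕ), Opt G c j → 1 ≤ j →
      (Finset.univ.filter (fun v => Fr G c v)).card +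
        (Finset.univ.filter (fun q => tQ G c q ∧
          ∃ s s', s ≠ s' ∧ G.Adj q s ∧ G.Adj q s' ∧ tS G c s ∧ tS G c s')).card =
      6 * j + (Finset.univ.filter (fun v => TD G c v)).card +
        (Finset.univ.filter (fun q => tQ G c q ∧ ∀ s, G.Adj q s → ¬ tS G c s)).card

/-- CLS: for `2 ≤ j`, girth at least 5, every slot is of type `N` or `M`, and an `A`-vertex has at
most one free neighbour. -/
def ST_CLS : Prop :=
  ∀ (V : Type) [Fintype V] [DecidableEq V] (G : SimpleGraph V) [DecidableRel G.Adj],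
    G.IsRegularOfDegree 3 → NoTri G → NoSq G → ∀ (c : V → Bool) (j : ℕ), Opt G c j → 2 ≤ j →
      (∀ u a : V, IsSl G c u a → Nsl G c u a ∨ ∃ t, Msl G c u a t) ∧
      (∀ u u' a : V, IsSl G c u a → IsSl G c u' a → u = u')

/-! ### Territories and conflicts (girth at least 5, `2 ≤ j`) -/

/-- K1: a slot is in conflict with at most 8 slots (itself included). -/
def ST_K1 : Prop :=
  ∀ (V : Type) [Fintype V] [DecidableEq V] (G : SimpleGraph V) [DecidableRel G.Adj],
    G.IsRegularOfDegree 3 → NoTri G → NoSq G → ∀ (c : V → Bool) (j : ℕ), Opt G c j → 2 ≤ j →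
      ∀ u a : V, IsSl G c u a →
        (Finset.univ.filter (fun p : V × V => IsSl G c p.1 p.2 ∧
          ¬ Disjoint (ter G c {u, a}) (ter G c {p.1, p.2}))).card ≤ 8

/-- K2: conflicts of the flips `{t}`, where `t` is the `T1`-vertex of an `M`-slot. -/
def ST_K2 : Prop :=
  ∀ (V : Type) [Fintype V] [DecidableEq V] (G : SimpleGraph V) [DecidableRel G.Adj],
    G.IsRegularOfDegree 3 → NoTri G → NoSq G → ∀ (c : V → Bool) (j : ℕ), Opt G c j → 2 ≤ j →
      (∀ u a : V, IsSl G c u a →
        (Finset.univ.filter (fun t : V => (∃ u' a', Msl G c u' a' t) ∧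
          ¬ Disjoint (ter G c {u, a}) (ter G c {t}))).card ≤ 4) ∧
      (∀ u a u' a' t : V, IsSl G c u a → Msl G c u' a' t →
        Disjoint (ter G c {u, a}) (ter G c {u', a'}) →
        Disjoint (ter G c {u, a}) (ter G c {t})) ∧
      (∀ t : V, (∃ u' a', Msl G c u' a' t) →
        (Finset.univ.filter (fun t' : V => (∃ u' a', Msl G c u' a' t') ∧
          ¬ Disjoint (ter G c {t}) (ter G c {t'}))).card ≤ 3)

/-- K3: conflicts of the flips `{s}`, `s` free. -/
def ST_K3 : Prop :=
  ∀ (V : Type) [Fintype V] [DecidableEq V] (G : SimpleGraph V) [DecidableRel G.Adj],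
    G.IsRegularOfDegree 3 → NoTri G → NoSq G → ∀ (c : V → Bool) (j : ℕ), Opt G c j → 2 ≤ j →
      (∀ u a : V, Nsl G c u a →
        (Finset.univ.filter (fun s : V => Fr G c s ∧
          ¬ Disjoint (ter G c {u, a}) (ter G c {s}))).card ≤ 2) ∧
      (∀ u a t : V, Msl G c u a t →
        (Finset.univ.filter (fun s : V => Fr G c s ∧
          ¬ Disjoint (ter G c {u, a}) (ter G c {s}))).card ≤ 3) ∧
      (∀ u a t : V, Msl G c u a t →
        (Finset.univ.filter (fun s : V => Fr G c s ∧
          ¬ Disjoint (ter G c {t}) (ter G c {s}))).card ≤ 2) ∧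
      (∀ s' : V, Fr G c s' →
        (Finset.univ.filter (fun s : V => Fr G c s ∧
          ¬ Disjoint (ter G c {s'}) (ter G c {s}))).card ≤ 2)

/-- SELECT: the choice of the operations for `2 ≤ j`, girth at least 5. -/
def ST_SEL : Prop :=
  ∀ (V : Type) [Fintype V] [DecidableEq V] (G : SimpleGraph V) [DecidableRel G.Adj],
    G.IsRegularOfDegree 3 → NoTri G → NoSq G → ∀ (c : V → Bool) (j : ℕ), Opt G c j → 2 ≤ j →
      ∃ (n h : ℕ) (uN aN sU : Fin n → V) (uM aM tM tV : Fin h → V), n + h = j ∧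
        (∀ i, Nsl G c (uN i) (aN i)) ∧ (∀ i, Fr G c (sU i)) ∧
        (∀ i, Msl G c (uM i) (aM i) (tM i)) ∧ (∀ i, T1 G c (tV i)) ∧
        (∀ x y : (Fin n ⊕ Fin n) ⊕ (Fin h ⊕ Fin h), x ≠ y →
          Disjoint
            (ter G c (Sum.elim (Sum.elim (fun i => {uN i, aN i}) (fun i => {sU i}))
              (Sum.elim (fun i => {uM i, aM i}) (fun i => {tV i})) x))
            (ter G c (Sum.elim (Sum.elim (fun i => {uN i, aN i}) (fun i => {sU i}))
              (Sum.elim (fun i => {uM i, aM i}) (fun i => {tV i})) y)))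

/-! ### Case `j = 1` -/

/-- J1: the case `j = 1` for triangle-free graphs. -/
def ST_J1 : Prop :=
  ∀ (V : Type) [Fintype V] [DecidableEq V] (G : SimpleGraph V) [DecidableRel G.Adj],
    G.IsRegularOfDegree 3 → NoTri G → ∀ (c : V → Bool), Opt G c 1 → Sol G

/-- J2: the case `2 ≤ j` for girth at least 5. -/
def ST_J2 : Prop :=
  ∀ (V : Type) [Fintype V] [DecidableEq V] (G : SimpleGraph V) [DecidableRel G.Adj],
    G.IsRegularOfDegree 3 → NoTri G → NoSq G → ∀ (c : V → Bool) (j : ℕ), Opt G c j → 2 ≤ j →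
      Sol G

end Pool.Agent.Helper27.MC
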