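import Mathlib

set_option autoImplicit false

namespace Pool.Agent.Helper27.MC

/-!
Two-colourings `c : V → Bool` of a cubic graph `G` (true = plus, false = minus).
-/

section defs

variable {V : Type} [Fintype V] [DecidableEq V] (G : SimpleGraph V) [DecidableRel G.Adj]

/-- The number of neighbours of `v` with the colour of `v`. -/
def mu (c : V → Bool) (v : V) : ℕ :=
  (Finset.univ.filter (fun w => G.Adj v w ∧ c w = c v)).card

/-- Twice the number of monochromatic edges. -/
def ZZ (c : V → Bool) : ℤ := ∑ v, (mu G c v : ℤ)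

/-- Number of `false` vertices minus number of `true` vertices. -/
def imb (c : V → Bool) : ℤ := ∑ v, (if c v = true then (-1 : ℤ) else 1)

/-- The potential (twice the number of mono edges plus the absolute imbalance). -/
def Phi (c : V → Bool) : ℤ := ZZ G c + |imb c|

/-- Flip the colours on `X`. -/
def flp (c : V → Bool) (X : Finset V) : V → Bool := fun v => if v ∈ X then !(c v) else c v

/-- `d(X)` = number of `false` vertices in `X` minus number of `true` vertices in `X`. -/
def dd (c : V → Bool) (X : Finset V) : ℤ := ∑ x ∈ X, (if c x = true then (-1 : ℤ) else 1)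

/-- Signed number of neighbours of `v` in `X`: cut neighbours count `1`, mono ones `-1`. -/
def sg (c : V → Bool) (X : Finset V) (v : V) : ℤ :=
  ∑ y ∈ X, (if G.Adj v y then (if c y = c v then (-1 : ℤ) else 1) else 0)

/-- Closed neighbourhood of a finset. -/
def cn (X : Finset V) : Finset V := Finset.univ.filter (fun v => v ∈ X ∨ ∃ x ∈ X, G.Adj v x)

/-- Optimal colourings. -/
structure Opt (c : V → Bool) (j : ℕ) : Prop where
  min : ∀ c' : V → Bool, Phi G c ≤ Phi G c'
  mu1 : ∀ v, mu G c v ≤ 1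
  imb2 : imb c = 2 * (j : ℤ)
  imin : ∀ c' : V → Bool, Phi G c' = Phi G c → (∀ v, mu G c' v ≤ 1) →
    2 * (j : ℤ) ≤ |imb c'|

/-- Type `A`: `true`, no mono neighbour. -/
def tA (c : V → Bool) (v : V) : Prop := c v = true ∧ mu G c v = 0
/-- Type `Q`: `true`, one mono neighbour. -/
def tQ (c : V → Bool) (v : V) : Prop := c v = true ∧ mu G c v = 1
/-- Type `B`: `false`, no mono neighbour. -/
def tB (c : V → Bool) (v : V) : Prop := c v = false ∧ mu G c v = 0
/-- Type `S`: `false`, one mono neighbour. -/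
def tS (c : V → Bool) (v : V) : Prop := c v = false ∧ mu G c v = 1

instance (c : V → Bool) (v : V) : Decidable (tA G c v) := by unfold tA; infer_instance
instance (c : V → Bool) (v : V) : Decidable (tQ G c v) := by unfold tQ; infer_instance
instance (c : V → Bool) (v : V) : Decidable (tB G c v) := by unfold tB; infer_instance
instance (c : V → Bool) (v : V) : Decidable (tS G c v) := by unfold tS; infer_instance

/-- A final colouring: balanced, the components are paths with at most three vertices, and the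
two colours have the same number of centres of such paths. -/
structure Fin3 (c : V → Bool) : Prop where
  bal : imb c = 0
  mu2 : ∀ v, mu G c v ≤ 2
  leaf : ∀ v w, mu G c v = 2 → G.Adj v w → c w = c v → mu G c w = 1
  cen : (Finset.univ.filter (fun v => c v = true ∧ mu G c v = 2)).card =
    (Finset.univ.filter (fun v => c v = false ∧ mu G c v = 2)).card

/-- A local operation: flip `X`; everything it influences lies in the zone `T`; it changes the
imbalance by `-2 d` and creates `p` centres of colour `true` and `m` of colour `false`. -/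
structure Op (c : V → Bool) (X T : Finset V) (d : ℤ) (p m : ℕ) : Prop where
  sub : cn G X ⊆ T
  dX : dd c X = d
  mu2 : ∀ v, mu G (flp c X) v ≤ 2
  leaf : ∀ v w, mu G (flp c X) v = 2 → v ∈ T ∧ (G.Adj v w → flp c X w = flp c X v →
    w ∈ T ∧ mu G (flp c X) w = 1)
  cp : (Finset.univ.filter (fun v => flp c X v = true ∧ mu G (flp c X) v = 2)).card = p
  cm : (Finset.univ.filter (fun v => flp c X v = false ∧ mu G (flp c X) v = 2)).card = m

end defs

/-! ### Generic modules -/

/-- FLIP -/
def ST_FLIP : Prop :=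
  ∀ (V : Type) [Fintype V] [DecidableEq V] (G : SimpleGraph V) [DecidableRel G.Adj],
    G.IsRegularOfDegree 3 → ∀ (c : V → Bool) (X : Finset V),
      ZZ G (flp c X) = ZZ G c + ∑ x ∈ X, (6 - 4 * (mu G c x : ℤ)) - 2 * ∑ x ∈ X, sg G c X x ∧
      imb (flp c X) = imb c - 2 * dd c X ∧
      (∀ v, v ∉ X → (mu G (flp c X) v : ℤ) = mu G c v + sg G c X v) ∧
      (∀ v, v ∈ X → (mu G (flp c X) v : ℤ) = 3 - mu G c v - sg G c X v)

/-- EXI: optimal colourings exist. -/
def ST_EXI : Prop :=
  ∀ (V : Type) [Fintype V] [DecidableEq V] (G : SimpleGraph V) [DecidableRel G.Adj],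
    G.IsRegularOfDegree 3 → ∃ (c : V → Bool) (j : ℕ), Opt G c j

/-- ISO: final colourings give isomorphic halves. -/
def ST_ISO : Prop :=
  ∀ (V : Type) [Fintype V] [DecidableEq V] (G : SimpleGraph V) [DecidableRel G.Adj],
    G.IsRegularOfDegree 3 → ∀ c : V → Bool, Fin3 G c →
      ∃ B : Finset V, 2 * B.card = Fintype.card V ∧
        Nonempty (SimpleGraph.Iso (G.induce (↑B : Set V)) (G.induce ((↑B : Set V)ᶜ)))

/-- CNT: counting cut edges. -/
def ST_CNT : Prop :=
  ∀ (V : Type) [Fintype V] [DecidableEq V] (G : SimpleGraph V) [DecidableRel G.Adj],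
    G.IsRegularOfDegree 3 → ∀ (c : V → Bool), (∀ v, mu G c v ≤ 1) →
      ((Finset.univ.filter (fun v => tS G c v)).card : ℤ) =
        (Finset.univ.filter (fun v => tQ G c v)).card + 3 * imb c

/-- UNI: compatible operations can be done together. -/
def ST_UNI : Prop :=
  ∀ (V : Type) [Fintype V] [DecidableEq V] (G : SimpleGraph V) [DecidableRel G.Adj],
    G.IsRegularOfDegree 3 → ∀ (c : V → Bool) (j : ℕ), (∀ v, mu G c v ≤ 1) → imb c = 2 * (j : ℤ) →
      ∀ (n : ℕ) (X T : Fin n → Finset V) (d : Fin n → ℤ) (p m : Fin n → ℕ),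
        (∀ i, Op G c (X i) (T i) (d i) (p i) (m i)) →
        (∀ i k, i ≠ k → Disjoint (T i) (T k)) →
        ∑ i, d i = (j : ℤ) → ∑ i, p i = ∑ i, m i →
        Fin3 G (flp c (Finset.univ.biUnion X))

/-- GRD: greedy choice of independent elements. -/
def ST_GRD : Prop :=
  ∀ (α : Type) [DecidableEq α] (s : Finset α) (R : α → α → Prop) [DecidableRel R] (k j : ℕ),
    (∀ x y, R x y → R y x) → (∀ x ∈ s, R x x) →
    (∀ x ∈ s, (s.filter (fun y => R x y)).card ≤ k) → k * j ≤ s.card → 0 < k →
    ∃ t ⊆ s, t.card = j ∧ ∀ x ∈ t, ∀ y ∈ t, x ≠ y → ¬ R x y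

/-- NB: the neighbourhoods in the four types of vertices. -/
def ST_NB : Prop :=
  ∀ (V : Type) [Fintype V] [DecidableEq V] (G : SimpleGraph V) [DecidableRel G.Adj],
    G.IsRegularOfDegree 3 → ∀ (c : V → Bool) (v : V),
      (mu G c v = 1 → ∃ m a b : V, m ≠ a ∧ m ≠ b ∧ a ≠ b ∧
        (∀ w, G.Adj v w ↔ w = m ∨ w = a ∨ w = b) ∧ c m = c v ∧ c a = !(c v) ∧ c b = !(c v)) ∧
      (mu G c v = 0 → ∃ x a b : V, x ≠ a ∧ x ≠ b ∧ a ≠ b ∧
        (∀ w, G.Adj v w ↔ w = x ∨ w = a ∨ w = b) ∧ c x = !(c v) ∧ c a = !(c v) ∧ c b = !(c v)) ∧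
      (∀ x a b : V, x ≠ a → x ≠ b → a ≠ b → (∀ w, G.Adj v w ↔ w = x ∨ w = a ∨ w = b) →
        ∀ c' : V → Bool, mu G c' v = (if c' x = c' v then 1 else 0) +
          (if c' a = c' v then 1 else 0) + (if c' b = c' v then 1 else 0))

end Pool.Agent.Helper27.MC
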