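import Pool.Agent.Helper27.MC.Base2
import Pool.Agent.Helper64.MC.Types
import Pool.Agent.Helper64.MC.Ops

set_option autoImplicit false

/-! Bridge between the vocabulary of Base2 and the one of the frame (Helper64). -/

namespace Pool.Agent.Helper27.MC

open Pool.Agent.Helper88.MC Pool.Agent.Helper51.MC

variable {V : Type} [Fintype V] [DecidableEq V] {G : SimpleGraph V} [DecidableRel G.Adj]

theorem br_true {c : V → Bool} (hm : ∀ v, mu G c v ≤ 1) {w : V} (hw : c w = true) :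
    tA G c w ∨ tQ G c w := by
  have h := hm w
  rcases Nat.lt_or_ge (mu G c w) 1 with h1 | h1
  · exact Or.inl ⟨hw, by omega⟩
  · exact Or.inr ⟨hw, by omega⟩

theorem not_AQ {c : V → Bool} {w : V} (h1 : tA G c w) (h2 : tQ G c w) : False := by
  have := h1.2
  have := h2.2
  omega

/-- The neighbourhood of an `S`-vertex. -/
theorem nbS (hG : G.IsRegularOfDegree 3) {c : V → Bool} {s : V} (hs : tS G c s) :
    ∃ m a b : V, m ≠ a ∧ m ≠ b ∧ a ≠ b ∧ (∀ w, G.Adj s w ↔ w = m ∨ w = a ∨ w = b) ∧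
      c m = false ∧ c a = true ∧ c b = true := by
  obtain ⟨m, a, b, h1, h2, h3, h4, h5, h6, h7⟩ := (NB V G hG c s).1 hs.2
  refine ⟨m, a, b, h1, h2, h3, h4, ?_, ?_, ?_⟩
  · rw [h5, hs.1]
  · rw [h6, hs.1]; rfl
  · rw [h7, hs.1]; rfl

theorem fr_iff {c : V → Bool} (hm : ∀ v, mu G c v ≤ 1) (s : V) :
    Fr G c s ↔ s ∈ Pool.Agent.Helper64.MC.Fr G c := by
  unfold Fr Pool.Agent.Helper64.MC.Fr Pool.Agent.Helper64.MC.nQ
  rw [Finset.mem_filter]
  constructor
  · intro h
    refine ⟨Finset.mem_univ _, h.1, ?_⟩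
    rw [Finset.card_eq_zero, Finset.filter_eq_empty_iff]
    intro w _ hw
    exact not_AQ (h.2 w hw.1 hw.2.1) hw.2
  · rintro ⟨-, h1, h2⟩
    rw [Finset.card_eq_zero, Finset.filter_eq_empty_iff] at h2
    refine ⟨h1, fun w h3 h4 => ?_⟩
    rcases br_true hm h4 with h5 | h5
    · exact h5
    · exact absurd ⟨h3, h5⟩ (h2 (Finset.mem_univ w))

theorem nQ_eq (hG : G.IsRegularOfDegree 3) {c : V → Bool} (hm : ∀ v, mu G c v ≤ 1)
    {s m a b : V} (hab : a ≠ b)
    (nb : ∀ w, G.Adj s w ↔ w = m ∨ w = a ∨ w = b) (hcm : c m = false) :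
    Pool.Agent.Helper64.MC.nQ G c s = (if tQ G c a then 1 else 0) + (if tQ G c b then 1 else 0) := by
  unfold Pool.Agent.Helper64.MC.nQ
  have h1 : Finset.univ.filter (fun w => G.Adj s w ∧ tQ G c w) =
      ({a, b} : Finset V).filter (fun w => tQ G c w) := by
    ext w
    simp only [Finset.mem_filter, Finset.mem_univ, true_and, Finset.mem_insert,
      Finset.mem_singleton, nb]
    constructor
    · rintro ⟨rfl | h, h2⟩
      · have := h2.1
        rw [hcm] at this
        cases this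
      · exact ⟨h, h2⟩
    · rintro ⟨h, h2⟩
      exact ⟨Or.inr h, h2⟩
  rw [h1, Finset.filter_insert, Finset.filter_singleton]
  by_cases ha : tQ G c a <;> by_cases hb : tQ G c b <;> simp [ha, hb, hab]

theorem t1_iff (hG : G.IsRegularOfDegree 3) {c : V → Bool} (hm : ∀ v, mu G c v ≤ 1) (s : V) :
    T1 G c s ↔ s ∈ Pool.Agent.Helper64.MC.T1 G c := by
  unfold Pool.Agent.Helper64.MC.T1
  simp only [Finset.mem_filter, Finset.mem_univ, true_and]
  unfold T1
  refine and_congr_right fun hs => ?_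
  obtain ⟨m, a, b, h1, h2, h3, h4, h5, h6, h7⟩ := nbS hG hs
  rw [nQ_eq hG hm h3 h4 h5]
  constructor
  · rintro ⟨⟨q, hq1, hq2⟩, ⟨x, hx1, hx2⟩⟩
    rw [h4] at hq1 hx1
    rcases hq1 with rfl | rfl | rfl
    · have := hq2.1
      rw [h5] at this
      cases this
    · rcases hx1 with rfl | rfl | rfl
      · have := hx2.1
        rw [h5] at this
        cases this
      · exact absurd hq2 (fun h => not_AQ hx2 h)
      · rw [if_pos hq2, if_neg (fun h => not_AQ hx2 h)]
    · rcases hx1 with rfl | rfl | rfl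
      · have := hx2.1
        rw [h5] at this
        cases this
      · rw [if_pos hq2, if_neg (fun h => not_AQ hx2 h)]
      · exact absurd hq2 (fun h => not_AQ hx2 h)
  · intro h
    rcases br_true hm h6 with ha | ha
    · rcases br_true hm h7 with hb | hb
      · rw [if_neg (fun h => not_AQ ha h), if_neg (fun h => not_AQ hb h)] at h
        omega
      · exact ⟨⟨b, (h4 b).2 (by simp), hb⟩, ⟨a, (h4 a).2 (by simp), ha⟩⟩
    · rcases br_true hm h7 with hb | hb
      · exact ⟨⟨a, (h4 a).2 (by simp), ha⟩, ⟨b, (h4 b).2 (by simp), hb⟩⟩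
      · rw [if_pos ha, if_pos hb] at h
        omega

theorem td_iff (hG : G.IsRegularOfDegree 3) {c : V → Bool} (hm : ∀ v, mu G c v ≤ 1) (s : V) :
    TD G c s ↔ s ∈ Pool.Agent.Helper64.MC.Dd G c := by
  unfold Pool.Agent.Helper64.MC.Dd
  simp only [Finset.mem_filter, Finset.mem_univ, true_and]
  unfold TD
  refine and_congr_right fun hs => ?_
  obtain ⟨m, a, b, h1, h2, h3, h4, h5, h6, h7⟩ := nbS hG hs
  rw [nQ_eq hG hm h3 h4 h5]
  constructor
  · intro h
    rw [if_pos (h a ((h4 a).2 (by simp)) h6), if_pos (h b ((h4 b).2 (by simp)) h7)]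
  · intro h w hw hcw
    rw [h4] at hw
    by_cases ha : tQ G c a
    · by_cases hb : tQ G c b
      · rcases hw with rfl | rfl | rfl
        · rw [h5] at hcw
          cases hcw
        · exact ha
        · exact hb
      · rw [if_pos ha, if_neg hb] at h
        omega
    · rw [if_neg ha] at h
      exfalso
      split_ifs at h
      all_goals omega

theorem ter_eq (c : V → Bool) (X : Finset V) : ter G c X = Pool.Agent.Helper64.MC.ter G c X := by
  ext v
  unfold ter Pool.Agent.Helper64.MC.ter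
  simp only [Finset.mem_filter, Finset.mem_univ, true_and]
  constructor
  · rintro (h | ⟨y, h1, h2, h3⟩)
    · exact ⟨v, h, Or.inl rfl⟩
    · exact ⟨y, h1, Or.inr ⟨h2, h3.symm⟩⟩
  · rintro ⟨x, h1, rfl | ⟨h2, h3⟩⟩
    · exact Or.inl h1
    · exact Or.inr ⟨x, h1, h2, h3.symm⟩

/-- The slot data. -/
theorem slot_data (hG : G.IsRegularOfDegree 3) {c : V → Bool} {u a : V} (h : IsSl G c u a) :
    ∃ m b x y, Pool.Agent.Helper64.MC.Slot G c u m a b x y := by
  obtain ⟨⟨hs, hf⟩, ha, hua⟩ := h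
  obtain ⟨m, a1, b1, h1, h2, h3, h4, h5, h6, h7⟩ := nbS hG hs
  have hA1 := hf a1 ((h4 a1).2 (by simp)) h6
  have hB1 := hf b1 ((h4 b1).2 (by simp)) h7
  -- the neighbourhood of `a`
  have key : ∃ x y, (∀ w, G.Adj a w ↔ w = u ∨ w = x ∨ w = y) ∧ x ≠ y ∧ x ≠ u ∧ y ≠ u := by
    obtain ⟨p, q, r, e1, e2, e3, e4⟩ := nb_three G hG a
    have hu := (e4 u).1 hua.symm
    rcases hu with rfl | rfl | rfl
    · exact ⟨q, r, e4, e3, e1.symm, e2.symm⟩
    · exact ⟨p, r, fun w => by rw [e4]; tauto, e2, e1, e3.symm⟩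
    · exact ⟨p, q, fun w => by rw [e4]; tauto, e1, e2, e3⟩
  obtain ⟨x, y, k1, k2, k3, k4⟩ := key
  have hau := (h4 a).1 hua
  rcases hau with rfl | rfl | rfl
  · have := ha.1
    rw [h5] at this
    cases this
  · exact ⟨m, b1, x, y, hs.1, h5, ha.1, h7, ha.2, hB1.2, h3, h4, k1, k2, k3, k4⟩
  · exact ⟨m, a1, x, y, hs.1, h5, ha.1, h6, ha.2, hA1.2, h3.symm,
      fun w => by rw [h4]; tauto, k1, k2, k3, k4⟩

end Pool.Agent.Helper27.MC
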