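import Pool.Agent.Helper27.MC.Base2
import Pool.Agent.Helper88.MC.ISO
import Pool.Agent.Helper88.MC.EXI
import Pool.Agent.Helper51.MC.FLIP

set_option autoImplicit false

namespace Pool.Agent.Helper27.MC

/-- `j = 0`: a balanced colouring with all `mu ≤ 1` is a solution. -/
theorem sol_zero (V : Type) [Fintype V] [DecidableEq V] (G : SimpleGraph V) [DecidableRel G.Adj]
    (hG : G.IsRegularOfDegree 3) (c : V → Bool) (hO : Opt G c 0) : Sol G := by
  refine Pool.Agent.Helper88.MC.ISO V G hG c ⟨?_, fun v => ?_, fun v w hv => ?_, ?_⟩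
  · have := hO.imb2
    simpa using this
  · exact (hO.mu1 v).trans (by norm_num)
  · have := hO.mu1 v
    omega
  · have h : ∀ b : Bool, (Finset.univ.filter (fun v => c v = b ∧ mu G c v = 2)).card = 0 := by
      intro b
      rw [Finset.card_eq_zero, Finset.filter_eq_empty_iff]
      rintro v _ ⟨_, h2⟩
      have := hO.mu1 v
      omega
    rw [h true, h false]

/-- All cases together. -/
theorem sol_all (V : Type) [Fintype V] [DecidableEq V] (G : SimpleGraph V) [DecidableRel G.Adj]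
    (hG : G.IsRegularOfDegree 3) (h1 : ∀ c : V → Bool, Opt G c 1 → Sol G)
    (h2 : ∀ (c : V → Bool) (j : ℕ), Opt G c j → 2 ≤ j → Sol G) : Sol G := by
  obtain ⟨c, j, hO⟩ := Pool.Agent.Helper88.MC.EXI Pool.Agent.Helper51.MC.FLIP V G hG
  rcases Nat.lt_or_ge j 2 with h | h
  · interval_cases j
    · exact sol_zero V G hG c hO
    · exact h1 c hO
  · exact h2 c j hO h

theorem noTri_of_egirth {V : Type} (G : SimpleGraph V) (h : 5 ≤ G.egirth) : NoTri G := by
  intro a b c hab hbc hac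
  have hp : (SimpleGraph.Walk.cons hab (SimpleGraph.Walk.cons hbc
      (SimpleGraph.Walk.cons hac.symm SimpleGraph.Walk.nil))).IsCycle := by
    rw [SimpleGraph.Walk.cons_isCycle_iff]
    refine ⟨?_, ?_⟩
    · simp [SimpleGraph.Walk.isPath_def, hab.ne, hbc.ne, hac.ne, hab.ne.symm, hbc.ne.symm, hac.ne.symm]
    · simp [hab.ne, hbc.ne, hac.ne, hab.ne.symm, hbc.ne.symm, hac.ne.symm]
  have h5 := (SimpleGraph.le_egirth.1 h) a _ hp
  simp at h5
  exact absurd h5 (by decide)

theorem noSq_of_egirth {V : Type} (G : SimpleGraph V) (h : 5 ≤ G.egirth) : NoSq G := by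
  intro a b x y hab hxy h1 h2 h3 h4
  have hp : (SimpleGraph.Walk.cons h1 (SimpleGraph.Walk.cons h3.symm
      (SimpleGraph.Walk.cons h4 (SimpleGraph.Walk.cons h2.symm SimpleGraph.Walk.nil)))).IsCycle := by
    rw [SimpleGraph.Walk.cons_isCycle_iff]
    refine ⟨?_, ?_⟩
    · simp [SimpleGraph.Walk.isPath_def, hab, hxy, hab.symm, hxy.symm, h1.ne, h2.ne, h3.ne, h4.ne,
        h1.ne.symm, h2.ne.symm, h3.ne.symm, h4.ne.symm]
    · simp [hab, hxy, hab.symm, hxy.symm, h1.ne, h2.ne, h3.ne, h4.ne,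
        h1.ne.symm, h2.ne.symm, h3.ne.symm, h4.ne.symm]
  have h5 := (SimpleGraph.le_egirth.1 h) a _ hp
  simp at h5
  exact absurd h5 (by decide)

/-- The theorem for girth at least 5, from the rows `J1` and `J2`. -/
theorem girth5 (hJ1 : ST_J1) (hJ2 : ST_J2) (V : Type) [Fintype V] [DecidableEq V]
    (G : SimpleGraph V) [DecidableRel G.Adj] (hG : G.IsRegularOfDegree 3) (hg : 5 ≤ G.egirth) :
    Sol G :=
  sol_all V G hG (fun c => hJ1 V G hG (noTri_of_egirth G hg) c)
    (fun c j => hJ2 V G hG (noTri_of_egirth G hg) (noSq_of_egirth G hg) c j)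

end Pool.Agent.Helper27.MC
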