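import Pool.Agent.Helper27.MC.FIN5
import Pool.Agent.Helper45.MC.EF
import Pool.Agent.Helper35.MC.H3
import Pool.Agent.Helper53.MC.CCF

set_option autoImplicit false

namespace Pool.Agent.Helper27.MC

/-- Ando's conjecture, from the case `2 ≤ j`. -/
theorem ando (hJ : ∀ (V : Type) [Fintype V] [DecidableEq V] (G : SimpleGraph V)
      [DecidableRel G.Adj], G.IsRegularOfDegree 3 → ∀ (c : V → Bool) (j : ℕ), 2 ≤ j →
        Opt G c j → Pool.Agent.Helper64.MC.Good G) (V : Type) [Fintype V] [DecidableEq V]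
    (G : SimpleGraph V) [DecidableRel G.Adj] (hG : G.IsRegularOfDegree 3) : Sol G := by
  refine sol_all V G hG (fun c hO => ?_) (fun c j hO hj => ?_)
  · obtain ⟨c', hc'⟩ := Pool.Agent.Helper45.MC.EJ_of Pool.Agent.Helper35.MC.st_H3
      Pool.Agent.Helper53.MC.cCC V G hG c hO
    exact Pool.Agent.Helper64.MC.ISO2 hG c' hc'
  · obtain ⟨c', hc'⟩ := hJ V G hG c j hj hO
    exact Pool.Agent.Helper64.MC.ISO2 hG c' hc'

end Pool.Agent.Helper27.MC
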