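import Pool.Agent.Helper27.MC.GST
import Pool.Agent.Helper96.MC.GFX
import Pool.Agent.Helper96.MC.THC
import Pool.Agent.Helper6.MC.SeqK
import Pool.Agent.Helper6.MC.C5c
import Pool.Agent.Helper9.MC.GW
import Pool.Agent.Helper53.MC.C5b
import Pool.Agent.Helper68.MC.C3
import Pool.Agent.Helper79.MC.G5S
import Pool.Agent.Helper81.MC.GC5a
import Pool.Agent.Helper86.MC.LN
import Pool.Agent.Helper92.MC.GC2
import Pool.Agent.Helper91.MC.DG
import Pool.Agent.Helper54.MC.GC4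

/-!
MP_4042d8_co, section D, part II: assembly of the case `2 ≤ j`.
-/

set_option autoImplicit false

namespace Pool.Agent.Helper27.GST

open Pool.Agent.Helper27.MC hiding Fr T1 ter
open Pool.Agent.Helper64.MC Pool.Agent.Helper33.MC

/-- G_J from G_COMB -/
theorem gj_of (hC : ST_GCOMB) : ST_GJ := by
  intro V _ _ G _ hG c j hj hO
  obtain ⟨c1, h1⟩ := Pool.Agent.Helper96.MC.exm_exists hO
  obtain ⟨L, F⟩ := Pool.Agent.Helper96.MC.gfx V G hG c1 j hj h1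
  obtain ⟨H, r⟩ := hC V G c1 j L F
  exact Pool.Agent.Helper6.MC.SEQG V G hG c1 j F.mu1 h1.ck.1.imb2 H r

/-- the case `2 ≤ j`, from the row G_C4 -/
theorem gj (h4 : ST_GC4) : ST_GJ :=
  gj_of (Pool.Agent.Helper91.MC.DG.st_GCOMB st_GST
    (Pool.Agent.Helper86.MC.st_GC0 Pool.Agent.Helper9.MC.GW.st_GW)
    (Pool.Agent.Helper86.MC.st_GC1 Pool.Agent.Helper9.MC.GW.st_GW)
    Pool.Agent.Helper92.MC.st_GC2 Pool.Agent.Helper68.MC.gc3 h4
    Pool.Agent.Helper79.MC.st_GC5s Pool.Agent.Helper81.MC.st_GC5a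
    Pool.Agent.Helper53.MC.B5.st_GC5b Pool.Agent.Helper6.MC.st_GC5c)

/-- the case `2 ≤ j` -/
theorem st_GJ : ST_GJ := gj Pool.Agent.Helper54.MC.G4.st_GC4

end Pool.Agent.Helper27.GST
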