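import Pool.Agent.Helper33.MC.GBas
import Pool.Agent.Helper79.MC.Acc
import Pool.Agent.Helper92.MC.DST

/-!
MP_4042d8_co, section D, part II: the start (row G_START).
-/

set_option autoImplicit false
set_option linter.unusedSectionVars false
set_option linter.unusedSimpArgs false
set_option linter.unusedVariables false

namespace Pool.Agent.Helper27.GST

open Pool.Agent.Helper27.MC hiding Fr T1 ter
open Pool.Agent.Helper51.MC Pool.Agent.Helper88.MC Pool.Agent.Helper64.MC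
open Pool.Agent.Helper33.MC
open Pool.Agent.Helper91.MC.GK (Khb)
open Pool.Agent.Helper79.MC (KP Sqg)
open Pool.Agent.Helper96.MC (Bd)
open Pool.Agent.Helper91.MC (mem_Fr mem_T1 mem_Dd sv_Fr sv_T1 sv_Dd sv_ex sv_rm sv_swap sv_tS
  sv_tSm tA_or_tQ tB_or_tS tA_not_tQ av_ex s_data)
open Pool.Agent.Helper92.MC (clr_empty)

variable {V : Type} [Fintype V] [DecidableEq V] {G : SimpleGraph V} [DecidableRel G.Adj]
  {c : V → Bool} {j : ℕ} {L : V → V → Prop}

theorem tri (hG : G.IsRegularOfDegree 3) (hm : ∀ v, mu G c v ≤ 1) {s : V} (hs : tS G c s) :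
    s ∈ Fr G c ∨ s ∈ T1 G c ∨ s ∈ Dd G c := by
  obtain ⟨m, x, y, nb, cm, cx, cy, hxy, hmx, hmy⟩ := s_data hG hs
  have S : Sv G c s m x y := ⟨hs.1, cm, cx, cy, ⟨nb, hmx, hmy, hxy⟩⟩
  rcases tA_or_tQ hm cx with h1 | h1 <;> rcases tA_or_tQ hm cy with h2 | h2
  · exact Or.inl ((sv_Fr hm S).2 ⟨h1, h2⟩)
  · exact Or.inr (Or.inl ((sv_T1 hm S).2 (Or.inl ⟨h1, h2⟩)))
  · exact Or.inr (Or.inl ((sv_T1 hm S).2 (Or.inr ⟨h1, h2⟩)))
  · exact Or.inr (Or.inr ((sv_Dd hm S).2 ⟨h1, h2⟩))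

/-- a slot of a free vertex whose mate is not bad is good at the start, or it is a `K`-slot -/
theorem start_slot (F : FxG G c j L) {u m a : V} (hu : u ∈ Fr G c) (hum : Rm G c u m)
    (hm : ¬ (Bd G c m ∧ ∀ y, ¬ L m y)) (ha : tA G c a) (hua : G.Adj u a) :
    GSG G c L ∅ u a ∨ ∃ v b t1 t2 r1 r2 p1 p2, Khb G c u v a b t1 t2 r1 r2 p1 p2 := by
  have hl : LS G c ∅ u a := ⟨hu, ha, hua, clr_empty _, clr_empty _⟩
  rcases st_GCLS V G c j L ∅ F u a hl with h | ⟨t, r, h⟩ | ⟨g, y, v, v', zx, zy, S, hg, hl'⟩ | h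
  · exact Or.inl ⟨hl, Or.inl h.2⟩
  · obtain ⟨_, h1, h2, h3, h4, h5, h6, h7⟩ := h
    exact Or.inl ⟨hl, Or.inr (Or.inl ⟨t, h1, h2, ⟨h3, clr_empty _⟩, h7⟩)⟩
  · left
    refine ⟨hl, Or.inr (Or.inr ⟨g, (S.ha.n3.nb g).2 (by simp), S.ha.n3.xy.symm, S.n12, hg, ?_⟩)⟩
    have hv : Rm G c u v := sv_rm S.h1
    have e : v = m := rm_uniq (F.mu1 u) hv hum
    subst e
    have hS : tS G c v := sv_tSm F.mu1 S.h1
    rcases tri F.reg F.mu1 hS with h | h | h
    · exact Or.inl ⟨v, hv, Or.inl ⟨h, clr_empty _⟩⟩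
    · exact Or.inl ⟨v, hv, Or.inr ⟨h, clr_empty _⟩⟩
    · right
      right
      have hb : Bd G c v := ⟨h, u, hv.symm, hu⟩
      have : ∃ y, L v y := by
        by_contra hne
        push Not at hne
        exact hm ⟨hb, hne⟩
      obtain ⟨y', hy'⟩ := this
      exact ⟨v, y', hv, hy', (F.lx.src v y' hy').1, clr_empty _⟩
  · exact Or.inr h

/-- row G_START -/
theorem st_GST : ST_GST := by
  classical
  intro V _ _ G _ c j L F
  have hG := F.reg
  have hm := F.mu1
  have hcnt := F.lx.cnt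
  have hlive : Fr G c ⊆ live G c ∅ := by
    intro u hu
    unfold live
    simp only [Finset.mem_filter, Finset.mem_univ, true_and]
    exact ⟨hu, clr_empty _⟩
  refine ⟨?_, le_trans (by omega) (Finset.card_le_card hlive)⟩
  have hmate : ∀ u, ∃ v, u ∈ Fr G c → Rm G c u v := by
    intro u
    by_cases h : u ∈ Fr G c
    · obtain ⟨v, hv⟩ := exists_mate (mem_Fr.1 h).1.2
      exact ⟨v, fun _ => hv⟩
    · exact ⟨u, fun h' => absurd h' h⟩
  choose f hf using hmate
  set bad := Finset.univ.filter (fun v => Bd G c v ∧ ∀ y, ¬ L v y) with hbad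
  set FD := (Fr G c).filter (fun u => f u ∈ bad) with hFD
  set FN := (Fr G c).filter (fun u => ¬ f u ∈ bad) with hFN
  have h1 : FD.card + FN.card = (Fr G c).card := Finset.card_filter_add_card_filter_not _
  have h2 : FD.card ≤ bad.card := by
    refine Finset.card_le_card_of_injOn f ?_ ?_
    · intro u hu
      exact (Finset.mem_filter.1 hu).2
    · intro u hu u' hu' he
      have k1 := hf u (Finset.mem_filter.1 hu).1
      have k2 := hf u' (Finset.mem_filter.1 hu').1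
      rw [he] at k1
      exact rm_uniq (hm _) k1.symm k2.symm
  have h3 : 6 * j ≤ FN.card := by omega
  -- the slots of `FN`
  set S : Finset (V × V) := Finset.univ.filter (fun p => p.1 ∈ FN ∧ tA G c p.2 ∧ G.Adj p.1 p.2)
    with hS
  have h4 : 2 * FN.card ≤ S.card := by
    have e1 : S.card = ∑ u ∈ FN, (S.filter (fun p => p.1 = u)).card :=
      Finset.card_eq_sum_card_fiberwise (fun p hp => (Finset.mem_filter.1 hp).2.1)
    have e2 : ∑ u ∈ FN, 2 ≤ ∑ u ∈ FN, (S.filter (fun p => p.1 = u)).card := by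
      refine Finset.sum_le_sum ?_
      intro u hu
      obtain ⟨k1, k2⟩ := Finset.mem_filter.1 hu
      obtain ⟨m, x, y, nb, cm, cx, cy, hxy, hmx, hmy⟩ := s_data hG (mem_Fr.1 k1).1
      have Su : Sv G c u m x y := ⟨(mem_Fr.1 k1).1.1, cm, cx, cy, ⟨nb, hmx, hmy, hxy⟩⟩
      obtain ⟨tx, ty⟩ := (sv_Fr hm Su).1 k1
      have hab : (u, x) ≠ (u, y) := by
        intro h
        exact hxy (Prod.ext_iff.1 h).2
      rw [← Finset.card_pair hab]
      refine Finset.card_le_card ?_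
      intro p hp
      rw [Finset.mem_insert, Finset.mem_singleton] at hp
      rw [Finset.mem_filter, hS, Finset.mem_filter]
      rcases hp with rfl | rfl
      · exact ⟨⟨Finset.mem_univ _, hu, tx, (nb x).2 (by simp)⟩, rfl⟩
      · exact ⟨⟨Finset.mem_univ _, hu, ty, (nb y).2 (by simp)⟩, rfl⟩
    rw [Finset.sum_const, smul_eq_mul] at e2
    omega
  -- the K-slots
  set S2 := S \ goodG G c L ∅ with hS2
  have h5 : S.card ≤ (goodG G c L ∅).card + S2.card := by
    have e1 : S ⊆ goodG G c L ∅ ∪ S2 := by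
      intro p hp
      by_cases h : p ∈ goodG G c L ∅
      · exact Finset.mem_union_left _ h
      · exact Finset.mem_union_right _ (Finset.mem_sdiff.2 ⟨hp, h⟩)
    exact (Finset.card_le_card e1).trans (Finset.card_union_le _ _)
  have h6 : 2 * S2.card ≤ (goodB G c ∅).card := by
    set B := (goodB G c ∅).filter (fun t => ∃ p ∈ S2, KP G c t p.1 p.2) with hB
    have hgb : ∀ t, ∃ p : V × V, t ∈ B → p ∈ S2 ∧ KP G c t p.1 p.2 := by
      intro t
      by_cases h : t ∈ B
      · obtain ⟨p, hp, hk⟩ := (Finset.mem_filter.1 h).2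
        exact ⟨p, fun _ => ⟨hp, hk⟩⟩
      · exact ⟨(t, t), fun h' => absurd h' h⟩
    choose g hg using hgb
    have e1 : B.card = ∑ p ∈ S2, (B.filter (fun t => g t = p)).card :=
      Finset.card_eq_sum_card_fiberwise (fun t ht => (hg t ht).1)
    have e2 : ∑ p ∈ S2, 2 ≤ ∑ p ∈ S2, (B.filter (fun t => g t = p)).card := by
      refine Finset.sum_le_sum ?_
      intro p hp
      obtain ⟨k1, k2⟩ := Finset.mem_sdiff.1 hp
      obtain ⟨-, k3, k4, k5⟩ := Finset.mem_filter.1 k1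
      obtain ⟨k6, k7⟩ := Finset.mem_filter.1 k3
      have hnb : ¬ (Bd G c (f p.1) ∧ ∀ y, ¬ L (f p.1) y) := by
        intro h
        exact k7 (Finset.mem_filter.2 ⟨Finset.mem_univ _, h⟩)
      rcases start_slot F k6 (hf _ k6) hnb k4 k5 with h | ⟨v, b, t1, t2, r1, r2, p1, p2, K⟩
      · exact absurd (mem_goodG.2 h) k2
      · have hl : LS G c ∅ p.1 p.2 := ⟨k6, k4, k5, clr_empty _, clr_empty _⟩
        have q1 : KP G c t1 p.1 p.2 := ⟨v, b, t2, r1, r2, p1, p2, K⟩
        have q2 : KP G c t2 p.1 p.2 := ⟨v, b, t1, r2, r1, p2, p1, K.symm⟩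
        have b1 : t1 ∈ B := Finset.mem_filter.2
          ⟨mem_goodB.2 ⟨p.1, v, p.2, b, t2, r1, r2, p1, p2, K, hl, clr_empty _⟩, p, hp, q1⟩
        have b2 : t2 ∈ B := Finset.mem_filter.2
          ⟨mem_goodB.2 ⟨p.1, v, p.2, b, t1, r2, r1, p2, p1, K.symm, hl, clr_empty _⟩, p, hp, q2⟩
        have c1 : g t1 = p := by
          obtain ⟨w1, w2⟩ := hg t1 b1
          obtain ⟨w3, w4⟩ := KP.uniq hm w2 q1
          exact Prod.ext w3 w4
        have c2 : g t2 = p := by
          obtain ⟨w1, w2⟩ := hg t2 b2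
          obtain ⟨w3, w4⟩ := KP.uniq hm w2 q2
          exact Prod.ext w3 w4
        rw [← Finset.card_pair K.ha.n3.yz]
        refine Finset.card_le_card ?_
        intro t ht
        rw [Finset.mem_insert, Finset.mem_singleton] at ht
        rw [Finset.mem_filter]
        rcases ht with rfl | rfl
        · exact ⟨b1, c1⟩
        · exact ⟨b2, c2⟩
    rw [Finset.sum_const, smul_eq_mul] at e2
    have e3 : B.card ≤ (goodB G c ∅).card := Finset.card_filter_le _ _
    omega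
  unfold Lam2
  omega

end Pool.Agent.Helper27.GST
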